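import Mathlib

/-! # CYL, part PF: growth of the powers of a primitive nonnegative matrix (P9)

`M` is a nonnegative matrix on a finite set, `C` a set of states which is stable
(`M i j = 0` for `j ∈ C`, `i ∉ C`), `ψ` a vector which is positive on `C`, zero outside `C`, with
`M ψ = Λ ψ`, and some power of `M` is positive on `C × C`. Then `c Λ ^ N ≤ (M ^ N) i j ≤ K Λ ^ N`
for `i, j ∈ C` and `N` large, and the logarithmic growth rate of each finite sum of such entries is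
`log Λ`. -/

open Filter Topology Finset

namespace Pool.Agent.CYL.PF

variable {ι : Type*} [Fintype ι] [DecidableEq ι]

theorem pow_nonneg_entry {M : Matrix ι ι ℝ} (h0 : ∀ i j, 0 ≤ M i j) (N : ℕ) (i j : ι) :
    0 ≤ (M ^ N) i j := by
  induction N generalizing i j with
  | zero =>
    rw [pow_zero, Matrix.one_apply]
    split_ifs <;> norm_num
  | succ n ih =>
    rw [pow_succ, Matrix.mul_apply]
    exact Finset.sum_nonneg fun k _ => mul_nonneg (ih i k) (h0 k j)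

/-- a stable set stays stable under the powers -/
theorem pow_stable {M : Matrix ι ι ℝ} {C : ι → Prop} (hst : ∀ i j, C j → ¬ C i → M i j = 0)
    (N : ℕ) (i j : ι) (hj : C j) (hi : ¬ C i) : (M ^ N) i j = 0 := by
  induction N generalizing j with
  | zero =>
    rw [pow_zero, Matrix.one_apply, if_neg]
    rintro rfl
    exact hi hj
  | succ n ih =>
    rw [pow_succ, Matrix.mul_apply]
    refine Finset.sum_eq_zero fun k _ => ?_
    by_cases hk : C k
    · rw [ih k hk, zero_mul]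
    · rw [hst k j hj hk, mul_zero]

theorem pow_eigen {M : Matrix ι ι ℝ} {ψ : ι → ℝ} {Λ : ℝ}
    (he : ∀ i, ∑ j, M i j * ψ j = Λ * ψ i) (N : ℕ) (i : ι) :
    ∑ j, (M ^ N) i j * ψ j = Λ ^ N * ψ i := by
  induction N generalizing i with
  | zero => simp [Matrix.one_apply]
  | succ n ih =>
    have : ∀ j, (M ^ (n + 1)) i j * ψ j = ∑ k, (M ^ n) i k * (M k j * ψ j) := by
      intro j
      rw [pow_succ, Matrix.mul_apply, Finset.sum_mul]
      exact Finset.sum_congr rfl fun k _ => by ring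
    simp_rw [this]
    rw [Finset.sum_comm]
    have h2 : ∀ k, ∑ j, (M ^ n) i k * (M k j * ψ j) = Λ * ((M ^ n) i k * ψ k) := by
      intro k
      rw [← Finset.mul_sum, he k]
      ring
    simp_rw [h2]
    rw [← Finset.mul_sum, ih i]
    ring

/-- the data -/
structure Prim (M : Matrix ι ι ℝ) (C : ι → Prop) (ψ : ι → ℝ) (Λ : ℝ) (n : ℕ) : Prop where
  nonneg : ∀ i j, 0 ≤ M i j
  eig : ∀ i, ∑ j, M i j * ψ j = Λ * ψ i
  pos : ∀ i, C i → 0 < ψ i
  zero : ∀ i, ¬ C i → ψ i = 0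
  prim : ∀ i j, C i → C j → 0 < (M ^ n) i j

variable {M : Matrix ι ι ℝ} {C : ι → Prop} {ψ : ι → ℝ} {Λ : ℝ} {n : ℕ}

theorem Prim.psi_nonneg (H : Prim M C ψ Λ n) (i : ι) : 0 ≤ ψ i := by
  by_cases h : C i
  · exact (H.pos i h).le
  · exact (H.zero i h).ge

theorem Prim.lam_nonneg (H : Prim M C ψ Λ n) {i : ι} (hi : C i) : 0 ≤ Λ := by
  by_contra h
  push Not at h
  have h1 := H.eig i
  have h2 : 0 ≤ ∑ j, M i j * ψ j :=
    Finset.sum_nonneg fun j _ => mul_nonneg (H.nonneg i j) (H.psi_nonneg j)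
  have h3 := mul_neg_of_neg_of_pos h (H.pos i hi)
  linarith

theorem Prim.lam_pos (H : Prim M C ψ Λ n) (hn : n ≠ 0) {i : ι} (hi : C i) : 0 < Λ := by
  rcases (H.lam_nonneg hi).lt_or_eq with h | h
  · exact h
  · exfalso
    have h1 := pow_eigen H.eig n i
    rw [← h, zero_pow hn, zero_mul] at h1
    have h2 : 0 < ∑ j, (M ^ n) i j * ψ j := by
      refine Finset.sum_pos' (fun j _ => mul_nonneg (pow_nonneg_entry H.nonneg n i j)
        (H.psi_nonneg j)) ⟨i, Finset.mem_univ i, mul_pos (H.prim i i hi hi) (H.pos i hi)⟩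
    linarith

/-- upper bound -/
theorem Prim.upper (H : Prim M C ψ Λ n) {i j : ι} (hi : C i) (hj : C j) :
    ∃ K : ℝ, 0 < K ∧ ∀ N : ℕ, (M ^ N) i j ≤ K * Λ ^ N := by
  refine ⟨ψ i / ψ j, div_pos (H.pos i hi) (H.pos j hj), fun N => ?_⟩
  have h1 := pow_eigen H.eig N i
  have h2 : (M ^ N) i j * ψ j ≤ ∑ k, (M ^ N) i k * ψ k :=
    Finset.single_le_sum (f := fun k => (M ^ N) i k * ψ k)
      (fun k _ => mul_nonneg (pow_nonneg_entry H.nonneg N i k) (H.psi_nonneg k))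
      (Finset.mem_univ j)
  rw [h1] at h2
  have h3 := H.pos j hj
  rw [div_mul_eq_mul_div, le_div_iff₀ h3]
  linarith

/-- lower bound -/
theorem Prim.lower (H : Prim M C ψ Λ n) (hΛ : 0 < Λ) {i j : ι} (hi : C i) (hj : C j) :
    ∃ c : ℝ, 0 < c ∧ ∀ N : ℕ, n ≤ N → c * Λ ^ N ≤ (M ^ N) i j := by
  classical
  have hne : (Finset.univ.filter C).Nonempty := ⟨i, by simp [hi]⟩
  obtain ⟨k0, hk0, hmin⟩ := Finset.exists_min_image (Finset.univ.filter C)
    (fun k => (M ^ n) k j) hne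
  obtain ⟨k1, hk1, hmax⟩ := Finset.exists_max_image (Finset.univ.filter C) ψ hne
  have hk0' : C k0 := (Finset.mem_filter.1 hk0).2
  have hk1' : C k1 := (Finset.mem_filter.1 hk1).2
  set δ := (M ^ n) k0 j with hδ
  have hδ0 : 0 < δ := H.prim k0 j hk0' hj
  have hP0 : 0 < ψ k1 := H.pos k1 hk1'
  refine ⟨δ / ψ k1 * ψ i / Λ ^ n, by have := H.pos i hi; positivity, fun N hN => ?_⟩
  obtain ⟨m, rfl⟩ := Nat.exists_eq_add_of_le' hN
  have h1 : ∀ k, (M ^ m) i k * (δ / ψ k1 * ψ k) ≤ (M ^ m) i k * (M ^ n) k j := by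
    intro k
    refine mul_le_mul_of_nonneg_left ?_ (pow_nonneg_entry H.nonneg m i k)
    by_cases hk : C k
    · have e1 : ψ k ≤ ψ k1 := hmax k (by simp [hk])
      have e2 : δ ≤ (M ^ n) k j := hmin k (by simp [hk])
      refine le_trans ?_ e2
      rw [div_mul_eq_mul_div, div_le_iff₀ hP0]
      exact mul_le_mul_of_nonneg_left e1 hδ0.le
    · rw [H.zero k hk, mul_zero]
      exact pow_nonneg_entry H.nonneg n k j
  rw [pow_add M, Matrix.mul_apply]
  refine le_trans ?_ (Finset.sum_le_sum fun k _ => h1 k)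
  have h2 : ∑ k, (M ^ m) i k * (δ / ψ k1 * ψ k) = δ / ψ k1 * (Λ ^ m * ψ i) := by
    rw [← pow_eigen H.eig m i, Finset.mul_sum]
    exact Finset.sum_congr rfl fun k _ => by ring
  rw [h2, pow_add]
  have hΛn : Λ ^ n ≠ 0 := (pow_pos hΛ n).ne'
  refine le_of_eq ?_
  field_simp

/-- both bounds for a finite sum of entries -/
theorem Prim.sum_bounds (H : Prim M C ψ Λ n) (hΛ : 0 < Λ) {P : Finset (ι × ι)}
    (hP : P.Nonempty) (hC : ∀ p ∈ P, C p.1 ∧ C p.2) :
    ∃ c K : ℝ, 0 < c ∧ 0 < K ∧ (∀ N : ℕ, ∑ p ∈ P, (M ^ N) p.1 p.2 ≤ K * Λ ^ N) ∧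
      ∀ N : ℕ, n ≤ N → c * Λ ^ N ≤ ∑ p ∈ P, (M ^ N) p.1 p.2 := by
  classical
  have hup : ∀ p : ι × ι, ∃ K : ℝ, 0 < K ∧ (C p.1 ∧ C p.2 → ∀ N : ℕ,
      (M ^ N) p.1 p.2 ≤ K * Λ ^ N) := by
    intro p
    by_cases h : C p.1 ∧ C p.2
    · obtain ⟨K, h1, h2⟩ := H.upper h.1 h.2
      exact ⟨K, h1, fun _ => h2⟩
    · exact ⟨1, one_pos, fun h' => absurd h' h⟩
  choose K hK0 hK using hup
  obtain ⟨p0, hp0⟩ := hP
  obtain ⟨c, hc0, hc⟩ := H.lower hΛ (hC p0 hp0).1 (hC p0 hp0).2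
  refine ⟨c, ∑ p ∈ P, K p, hc0, Finset.sum_pos (fun p _ => hK0 p) ⟨p0, hp0⟩, fun N => ?_,
    fun N hN => ?_⟩
  · rw [Finset.sum_mul]
    exact Finset.sum_le_sum fun p hp => hK p (hC p hp) N
  · refine (hc N hN).trans ?_
    exact Finset.single_le_sum (f := fun p : ι × ι => (M ^ N) p.1 p.2)
      (fun p _ => pow_nonneg_entry H.nonneg N p.1 p.2) hp0

/-- a sequence between two multiples of `Λ ^ N` has logarithmic growth rate `log Λ` -/
theorem tendsto_log_div {S : ℕ → ℝ} {Λ c K : ℝ} (hΛ : 0 < Λ) (hc : 0 < c) (hK : 0 < K) {n : ℕ}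
    (h1 : ∀ N : ℕ, n ≤ N → c * Λ ^ N ≤ S N) (h2 : ∀ N : ℕ, n ≤ N → S N ≤ K * Λ ^ N) :
    Tendsto (fun N : ℕ => Real.log (S N) / N) atTop (𝓝 (Real.log Λ)) := by
  have hN : Tendsto (fun N : ℕ => (N : ℝ)) atTop atTop := tendsto_natCast_atTop_atTop
  have l1 : Tendsto (fun N : ℕ => Real.log c / N + Real.log Λ) atTop (𝓝 (Real.log Λ)) := by
    have := (tendsto_const_nhds (x := Real.log c)).div_atTop hN
    simpa using this.add_const (Real.log Λ)
  have l2 : Tendsto (fun N : ℕ => Real.log K / N + Real.log Λ) atTop (𝓝 (Real.log Λ)) := by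
    have := (tendsto_const_nhds (x := Real.log K)).div_atTop hN
    simpa using this.add_const (Real.log Λ)
  refine tendsto_of_tendsto_of_tendsto_of_le_of_le' l1 l2 ?_ ?_
  · filter_upwards [eventually_ge_atTop (max n 1)] with N hN
    have hn : n ≤ N := le_trans (le_max_left _ _) hN
    have h0 : (0 : ℝ) < N := by
      have : 1 ≤ N := le_trans (le_max_right _ _) hN
      exact_mod_cast this
    have hp : 0 < Λ ^ N := pow_pos hΛ N
    have h3 : Real.log c + N * Real.log Λ ≤ Real.log (S N) := by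
      rw [← Real.log_pow, ← Real.log_mul hc.ne' hp.ne']
      exact Real.log_le_log (mul_pos hc hp) (h1 N hn)
    rw [le_div_iff₀ h0, add_mul, div_mul_cancel₀ _ h0.ne']
    linarith
  · filter_upwards [eventually_ge_atTop (max n 1)] with N hN
    have hn : n ≤ N := le_trans (le_max_left _ _) hN
    have h0 : (0 : ℝ) < N := by
      have : 1 ≤ N := le_trans (le_max_right _ _) hN
      exact_mod_cast this
    have hp : 0 < Λ ^ N := pow_pos hΛ N
    have h3 : Real.log (S N) ≤ Real.log K + N * Real.log Λ := by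
      rw [← Real.log_pow, ← Real.log_mul hK.ne' hp.ne']
      exact Real.log_le_log (lt_of_lt_of_le (mul_pos hc hp) (h1 N hn)) (h2 N hn)
    rw [div_le_iff₀ h0, add_mul, div_mul_cancel₀ _ h0.ne']
    linarith

/-- **Growth.** The logarithmic growth rate of a finite sum of entries of the powers. -/
theorem Prim.tendsto (H : Prim M C ψ Λ n) (hΛ : 0 < Λ) {P : Finset (ι × ι)}
    (hP : P.Nonempty) (hC : ∀ p ∈ P, C p.1 ∧ C p.2) :
    Tendsto (fun N : ℕ => Real.log (∑ p ∈ P, (M ^ N) p.1 p.2) / N) atTop (𝓝 (Real.log Λ)) := by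
  obtain ⟨c, K, hc, hK, h1, h2⟩ := H.sum_bounds hΛ hP hC
  exact tendsto_log_div hΛ hc hK h2 fun N _ => h1 N

end Pool.Agent.CYL.PF
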